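import Pool.Agent.Helper780_CQ.Fin0
import Pool.Agent.Results.MP_0655ed_mp.RareSpecies

set_option autoImplicit false

open MeasureTheory
open scoped Topology

namespace Pool.Agent.Results.MP_0655ed_mp.FullAnswer

open Pool.Agent.Helper985.CP

/-- Insertion of a neutral pair, full answer. In every H-stable system the change of the ground
state energy is bounded, uniformly in all neutral occupation numbers; at temperatures `T > 0` the
change of the free energy is bounded, uniformly in all neutral occupation numbers, if and only if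
no neutral occupation numbers contain a third species. -/
theorem result {S : Type} [Fintype S] [DecidableEq S] (D : Species S) (hD : D.Valid)
    (hst : HStable D) (a b : S) (hb : D.charge b = -D.charge a) (ρ : ℝ) (hρ : 0 < ρ) :
    -- ground states
    ((∀ ℓ : ℝ, 0 < ℓ → ∀ n : S → ℕ,
      (energies D (fun i : (Σ s, Fin (n s)) => i.1) ℓ).Nonempty ∧
      BddBelow (energies D (fun i : (Σ s, Fin (n s)) => i.1) ℓ)) ∧
    (∃ C : ℝ, ∀ n : S → ℕ, 1 ≤ ∑ s, (n s : ℝ) → ∑ s, (n s : ℝ) * D.charge s = 0 →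
      |groundEnergy D (((∑ s, (n s : ℝ)) / ρ) ^ (1 / 3 : ℝ)) (addPair n a b) -
        groundEnergy D (((∑ s, (n s : ℝ)) / ρ) ^ (1 / 3 : ℝ)) n| ≤ C)) ∧
    -- temperatures `T > 0`
    (∀ T : ℝ, 0 < T →
      (∀ ℓ : ℝ, 0 < ℓ → ∀ n : S → ℕ,
        BddAbove (peierls D (fun i : (Σ s, Fin (n s)) => i.1) ℓ T) ∧ 0 < partition D ℓ T n) ∧
      ((∃ C : ℝ, ∀ n : S → ℕ, 1 ≤ ∑ s, (n s : ℝ) → ∑ s, (n s : ℝ) * D.charge s = 0 →
        |freeEnergy D (((∑ s, (n s : ℝ)) / ρ) ^ (1 / 3 : ℝ)) T (addPair n a b) -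
          freeEnergy D (((∑ s, (n s : ℝ)) / ρ) ^ (1 / 3 : ℝ)) T n| ≤ C) ↔
      ∀ n : S → ℕ, ∑ s, (n s : ℝ) * D.charge s = 0 → ∀ s, n s ≠ 0 → s = a ∨ s = b)) := by
  refine ⟨⟨fun ℓ hℓ n => ?_, Pool.Agent.Helper780_CQ.Fin0.ground_all D hD hst a b hb ρ hρ⟩,
    fun T hT => ⟨fun ℓ hℓ n => ?_, (RareSpecies.result D hD hst a b hb ρ T hρ hT).2.2⟩⟩
  · have h := energies_basic D hD hst (fun i : (Σ s, Fin (n s)) => i.1) ℓ hℓ
    exact ⟨h.1, h.2.1⟩
  · exact ⟨peierls_bdd D hD hst _ ℓ T hℓ hT, (peierls_pos D hD hst _ ℓ T hℓ hT).2⟩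

end Pool.Agent.Results.MP_0655ed_mp.FullAnswer
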